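import Pool.Agent.H934R3.NP.Stmts

set_option autoImplicit false

/-! # Task F3 of the NP project: the potential is differentiable off the surface. -/

namespace Pool.Agent.H884R3.NP

open MeasureTheory Set Filter Topology Pool.Agent.H934R3.NP
open scoped ENNReal NNReal

theorem hasGradientAt_G {w : E} (hw : w ≠ 0) : HasGradientAt G (dG w) w := by
  have hn : ‖w‖ ≠ 0 := norm_ne_zero_iff.2 hw
  have hn2 : ‖w‖ ^ 2 ≠ 0 := pow_ne_zero _ hn
  have hsq : Real.sqrt (‖w‖ ^ 2) = ‖w‖ := Real.sqrt_sq (norm_nonneg _)
  have h1 : HasFDerivAt (fun x : E => ‖x‖ ^ 2) (2 • (innerSL ℝ w)) w :=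
    (hasStrictFDerivAt_norm_sq w).hasFDerivAt
  have h2 := h1.sqrt hn2
  have h3 : HasFDerivAt (fun x : E => ‖x‖) ((1 / (2 * ‖w‖)) • (2 • (innerSL ℝ w))) w := by
    rw [hsq] at h2
    refine h2.congr_of_eventuallyEq (Eventually.of_forall fun x => ?_)
    exact (Real.sqrt_sq (norm_nonneg _)).symm
  have h4 : HasFDerivAt (fun x : E => 4 * Real.pi * ‖x‖)
      ((4 * Real.pi) • ((1 / (2 * ‖w‖)) • (2 • (innerSL ℝ w)))) w := h3.const_mul _
  have hpi := Real.pi_pos
  have h0 : 4 * Real.pi * ‖w‖ ≠ 0 := by positivity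
  have h5 : HasFDerivAt (fun x : E => (4 * Real.pi * ‖x‖)⁻¹)
      ((-((4 * Real.pi * ‖w‖) ^ 2)⁻¹) •
        ((4 * Real.pi) • ((1 / (2 * ‖w‖)) • (2 • (innerSL ℝ w))))) w := by
    have := (hasDerivAt_inv h0).comp_hasFDerivAt w h4
    exact this
  have h6 : G = fun x : E => (4 * Real.pi * ‖x‖)⁻¹ := by
    funext x
    unfold G
    rw [one_div]
  rw [h6]
  show HasFDerivAt _ _ _
  refine h5.congr_fderiv ?_
  ext v
  simp only [InnerProductSpace.toDual_apply_apply, smul_apply, innerSL_apply_apply,
    smul_eq_mul, dG, inner_smul_left, nsmul_eq_mul, Nat.cast_ofNat]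
  simp only [conj_trivial]
  field_simp

theorem norm_dG_le {w : E} {δ : ℝ} (hδ : 0 < δ) (hw : δ ≤ ‖w‖) :
    ‖dG w‖ ≤ 1 / (4 * Real.pi * δ ^ 2) := by
  have hw0 : 0 < ‖w‖ := hδ.trans_le hw
  have hpi := Real.pi_pos
  have h1 : ‖dG w‖ = 1 / (4 * Real.pi * ‖w‖ ^ 2) := by
    unfold dG
    rw [norm_smul, norm_neg, Real.norm_of_nonneg (by positivity)]
    field_simp
  rw [h1]
  apply one_div_le_one_div_of_le (by positivity)
  apply mul_le_mul_of_nonneg_left _ (by positivity)
  exact pow_le_pow_left₀ hδ.le hw 2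

theorem measurable_G : Measurable G := by
  unfold G
  fun_prop

theorem measurable_dG : Measurable dG := by
  unfold dG
  fun_prop

theorem continuousAt_dG {w : E} (hw : w ≠ 0) : ContinuousAt dG w := by
  have hn : ‖w‖ ≠ 0 := norm_ne_zero_iff.2 hw
  have hpi := Real.pi_pos.ne'
  have h1 : ContinuousAt (fun z : E => -(1 / (4 * Real.pi * ‖z‖ ^ 3))) w := by
    have h2 : ContinuousAt (fun z : E => 4 * Real.pi * ‖z‖ ^ 3) w := by fun_prop
    have h3 : 4 * Real.pi * ‖w‖ ^ 3 ≠ 0 := by positivity
    exact (continuousAt_const.div h2 h3).neg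
  exact h1.smul continuousAt_id

theorem sig_compl (g : E → ℝ) (hg : Continuous g) : sig g (Sg g)ᶜ = 0 := by
  have hm : MeasurableSet {x | g x = 0} := (isClosed_singleton.preimage hg).measurableSet
  unfold sig
  rw [Measure.smul_apply, Measure.restrict_apply (show MeasurableSet (Sg g)ᶜ from hm.compl)]
  have : (Sg g)ᶜ ∩ {x | g x = 0} = ∅ := by
    ext x
    simp [Sg]
  rw [this]
  simp

theorem taskF3 : TaskF3 := by
  intro g hg hfin φ hφ z₀ hz₀
  have hcont : Continuous g := hg.smooth.continuous
  have hclosed : IsClosed (Sg g) := isClosed_singleton.preimage hcont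
  obtain ⟨r, hr, hball⟩ := Metric.isOpen_iff.1 hclosed.isOpen_compl z₀ hz₀
  set δ := r / 2 with hδdef
  have hδ : 0 < δ := by positivity
  have hae : ∀ᵐ y ∂(sig g), y ∈ Sg g := by
    rw [ae_iff]
    exact sig_compl g hcont
  have hdist : ∀ y ∈ Sg g, ∀ x ∈ Metric.ball z₀ δ, δ ≤ ‖x - y‖ := by
    intro y hy x hx
    by_contra hcon
    push Not at hcon
    have h1 : dist y z₀ < r := by
      calc dist y z₀ ≤ dist y x + dist x z₀ := dist_triangle _ _ _
        _ < δ + δ := by
            refine add_lt_add ?_ (Metric.mem_ball.1 hx)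
            rw [dist_comm, dist_eq_norm]
            exact hcon
        _ = r := by rw [hδdef]; ring
    exact hball (Metric.mem_ball.2 h1) hy
  have hne : ∀ y ∈ Sg g, ∀ x ∈ Metric.ball z₀ δ, x - y ≠ 0 := fun y hy x hx =>
    norm_ne_zero_iff.1 (hδ.trans_le (hdist y hy x hx)).ne'
  have hpi := Real.pi_pos
  have hφm := hφ.aestronglyMeasurable
  have hGm : ∀ x : E, AEStronglyMeasurable (fun y => G (x - y)) (sig g) := fun x =>
    (measurable_G.comp (measurable_const.sub measurable_id)).aestronglyMeasurable
  have hdGm : ∀ x : E, AEStronglyMeasurable (fun y => dG (x - y)) (sig g) := fun x =>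
    (measurable_dG.comp (measurable_const.sub measurable_id)).aestronglyMeasurable
  have hball0 : Metric.ball z₀ δ ∈ 𝓝 z₀ := Metric.ball_mem_nhds _ hδ
  have hbint : Integrable (fun y => (1 / (4 * Real.pi * δ ^ 2)) * ‖φ y‖) (sig g) :=
    hφ.norm.const_mul _
  have hint : Integrable (fun y => φ y • dG (z₀ - y)) (sig g) := by
    refine hbint.mono' (hφm.smul (hdGm z₀)) ?_
    filter_upwards [hae] with y hy
    rw [norm_smul, mul_comm]
    exact mul_le_mul_of_nonneg_right
      (norm_dG_le hδ (hdist y hy z₀ (Metric.mem_ball_self hδ))) (norm_nonneg _)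
  refine ⟨?_, ?_⟩
  · have key := hasFDerivAt_integral_of_dominated_of_fderiv_le (𝕜 := ℝ) (μ := sig g)
      (F := fun x y => G (x - y) * φ y)
      (F' := fun x y => φ y • InnerProductSpace.toDual ℝ E (dG (x - y))) (x₀ := z₀)
      (bound := fun y => (1 / (4 * Real.pi * δ ^ 2)) * ‖φ y‖) (s := Metric.ball z₀ δ) hball0
      (Eventually.of_forall fun x => (hGm x).mul hφm)
      (by
        refine (hφ.norm.const_mul (1 / (4 * Real.pi * δ))).mono' ((hGm z₀).mul hφm) ?_
        filter_upwards [hae] with y hy
        have h1 := hdist y hy z₀ (Metric.mem_ball_self hδ)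
        have h2 : (0 : ℝ) < ‖z₀ - y‖ := hδ.trans_le h1
        rw [norm_mul]
        refine mul_le_mul_of_nonneg_right ?_ (norm_nonneg _)
        unfold G
        rw [Real.norm_of_nonneg (by positivity)]
        exact one_div_le_one_div_of_le (by positivity)
          (mul_le_mul_of_nonneg_left h1 (by positivity)))
      (hφm.smul ((InnerProductSpace.toDual ℝ E).continuous.comp_aestronglyMeasurable (hdGm z₀)))
      (by
        filter_upwards [hae] with y hy
        intro x hx
        rw [norm_smul, LinearIsometryEquiv.norm_map, mul_comm]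
        exact mul_le_mul_of_nonneg_right (norm_dG_le hδ (hdist y hy x hx)) (norm_nonneg _))
      hbint
      (by
        filter_upwards [hae] with y hy
        intro x hx
        have h1 : HasFDerivAt G (InnerProductSpace.toDual ℝ E (dG (x - y))) (x - y) :=
          hasGradientAt_G (hne y hy x hx)
        have h2 : HasFDerivAt (fun x : E => x - y) (ContinuousLinearMap.id ℝ E) x :=
          (hasFDerivAt_id x).sub_const y
        have h3 := (h1.comp x h2).mul_const (φ y)
        refine h3.congr_fderiv ?_
        ext v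
        simp)
    show HasFDerivAt _ _ _
    refine key.congr_fderiv ?_
    have hint' : Integrable (fun y => φ y • InnerProductSpace.toDual ℝ E (dG (z₀ - y))) (sig g) := by
      refine hbint.mono' (hφm.smul
        ((InnerProductSpace.toDual ℝ E).continuous.comp_aestronglyMeasurable (hdGm z₀))) ?_
      filter_upwards [hae] with y hy
      rw [norm_smul, LinearIsometryEquiv.norm_map, mul_comm]
      exact mul_le_mul_of_nonneg_right
        (norm_dG_le hδ (hdist y hy z₀ (Metric.mem_ball_self hδ))) (norm_nonneg _)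
    ext v
    rw [ContinuousLinearMap.integral_apply hint', InnerProductSpace.toDual_apply_apply, uu,
      real_inner_comm, ← integral_inner hint v]
    refine integral_congr_ae (Eventually.of_forall fun y => ?_)
    simp only [smul_apply, InnerProductSpace.toDual_apply_apply, smul_eq_mul,
      inner_smul_right]
    rw [real_inner_comm]
  · refine continuousAt_of_dominated (bound := fun y => (1 / (4 * Real.pi * δ ^ 2)) * ‖φ y‖)
      (Eventually.of_forall fun x => hφm.smul (hdGm x)) ?_ hbint ?_
    · filter_upwards [hball0] with x hx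
      filter_upwards [hae] with y hy
      rw [norm_smul, mul_comm]
      exact mul_le_mul_of_nonneg_right (norm_dG_le hδ (hdist y hy x hx)) (norm_nonneg _)
    · filter_upwards [hae] with y hy
      have h1 : ContinuousAt (fun x : E => dG (x - y)) z₀ :=
        ContinuousAt.comp (f := fun x : E => x - y)
          (continuousAt_dG (hne y hy z₀ (Metric.mem_ball_self hδ)))
          (continuousAt_id.sub continuousAt_const)
      exact (continuousAt_const (y := φ y)).smul h1

end Pool.Agent.H884R3.NP
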